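import Pool.Agent.H430R2.PermCubes.Defs

set_option autoImplicit false

/-!
# Seven cubes of dimension six and order six from one gadget of dimension three
-/

namespace Pool.Agent.TH7.Six6

open Function Pool.Agent.H430R2.PermCubes

theorem h6 (a : ZMod 6) : 6 * a = 0 := by revert a; decide

theorem z23 {a : ZMod 6} (h2 : 2 * a = 0) (h3 : 3 * a = 0) : a = 0 := by
  linear_combination h3 - h2

/-- four cubes of dimension three; `s` signs of the relation modulo three -/
structure IsGadget (K : Fin 4 → (Fin 3 → ZMod 6) → ZMod 6) : Prop where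
  line : ∀ (a : Fin 4) (i : Fin 3) (z : Fin 3 → ZMod 6), Bijective (fun t => K a (update z i t))
  inj : ∀ z z' : Fin 3 → ZMod 6, (∀ a, K a z = K a z') → z = z'
  rel3 : ∀ z, 2 * (K 0 z + K 1 z + K 2 z + K 3 z) = 0
  rel2 : ∀ z z', (∀ a, 2 * K a z = 2 * K a z') →
    3 * (K 0 z + K 1 z + K 2 z) = 3 * (K 0 z' + K 1 z' + K 2 z')

/-- letters of the first argument -/
def la : Fin 7 → Fin 4 := ![0, 1, 2, 3, 3, 3, 3]

/-- letters of the second argument -/
def lb : Fin 7 → Fin 4 := ![3, 3, 3, 0, 1, 2, 3]

/-- the seven cubes -/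
def F (K : Fin 4 → (Fin 3 → ZMod 6) → ZMod 6) (o : Fin 7) (z w : Fin 3 → ZMod 6) : ZMod 6 :=
  K (la o) z + K (lb o) w

theorem key {K : Fin 4 → (Fin 3 → ZMod 6) → ZMod 6} (hK : IsGadget K) (k₀ : Fin 7)
    {z w z' w' : Fin 3 → ZMod 6} (h : ∀ o, o ≠ k₀ → F K o z w = F K o z' w') :
    z = z' ∧ w = w' := by
  have hs : ∑ o, (F K o z w - F K o z' w') = F K k₀ z w - F K k₀ z' w' :=
    Finset.sum_eq_single k₀ (fun o _ ho => by rw [h o ho, sub_self])
      (fun h' => absurd (Finset.mem_univ _) h')
  have hs' : ∑ o, (F K o z w - F K o z' w') =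
      (K 0 z + K 1 z + K 2 z + 4 * K 3 z) - (K 0 z' + K 1 z' + K 2 z' + 4 * K 3 z') +
      ((K 0 w + K 1 w + K 2 w + 4 * K 3 w) - (K 0 w' + K 1 w' + K 2 w' + 4 * K 3 w')) := by
    simp only [Fin.sum_univ_seven, F, la, lb, Matrix.cons_val_zero, Matrix.cons_val_one,
      Matrix.cons_val]
    ring
  rw [hs'] at hs
  set D := F K k₀ z w - F K k₀ z' w' with hD
  have e2 : 2 * D = 0 := by
    have a1 := hK.rel3 z
    have a2 := hK.rel3 z'
    have a3 := hK.rel3 w
    have a4 := hK.rel3 w'
    linear_combination (-2) * hs + a1 - a2 + a3 - a4 + h6 (K 3 z) - h6 (K 3 z') + h6 (K 3 w) -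
      h6 (K 3 w')
  have all2 : ∀ o, 2 * (F K o z w - F K o z' w') = 0 := by
    intro o
    by_cases ho : o = k₀
    · rw [ho]; exact e2
    · rw [h o ho]; ring
  have d0 := all2 0
  have d1 := all2 1
  have d2 := all2 2
  have d3 := all2 3
  have d4 := all2 4
  have d5 := all2 5
  have d6 := all2 6
  simp only [F, la, lb, Matrix.cons_val_zero, Matrix.cons_val_one, Matrix.cons_val] at d0 d1 d2 d3 d4 d5 d6
  have a1 := hK.rel3 z
  have a2 := hK.rel3 z'
  have a3 := hK.rel3 w
  have a4 := hK.rel3 w'
  have z3 : 2 * (K 3 z - K 3 z') = 0 := by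
    linear_combination a1 - a2 - d0 - d1 - d2 + 3 * d6 - h6 (K 3 z) + h6 (K 3 z')
  have w3 : 2 * (K 3 w - K 3 w') = 0 := by linear_combination d6 - z3
  have z0 : 2 * (K 0 z - K 0 z') = 0 := by linear_combination d0 - w3
  have z1 : 2 * (K 1 z - K 1 z') = 0 := by linear_combination d1 - w3
  have z2 : 2 * (K 2 z - K 2 z') = 0 := by linear_combination d2 - w3
  have w0 : 2 * (K 0 w - K 0 w') = 0 := by linear_combination d3 - z3
  have w1 : 2 * (K 1 w - K 1 w') = 0 := by linear_combination d4 - z3
  have w2 : 2 * (K 2 w - K 2 w') = 0 := by linear_combination d5 - z3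
  have pz := hK.rel2 z z' (fun a => by
    match a with
    | 0 => linear_combination z0
    | 1 => linear_combination z1
    | 2 => linear_combination z2
    | 3 => linear_combination z3)
  have pw := hK.rel2 w w' (fun a => by
    match a with
    | 0 => linear_combination w0
    | 1 => linear_combination w1
    | 2 => linear_combination w2
    | 3 => linear_combination w3)
  have e3 : 3 * D = 0 := by
    linear_combination (-3) * hs + pz + pw + 2 * h6 (K 3 z) - 2 * h6 (K 3 z') + 2 * h6 (K 3 w) -
      2 * h6 (K 3 w')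
  have e0 : D = 0 := z23 e2 e3
  have all : ∀ o, F K o z w - F K o z' w' = 0 := by
    intro o
    by_cases ho : o = k₀
    · rw [ho]; exact e0
    · rw [h o ho]; ring
  have f0 := all 0
  have f1 := all 1
  have f2 := all 2
  have f3 := all 3
  have f4 := all 4
  have f5 := all 5
  have f6 := all 6
  simp only [F, la, lb, Matrix.cons_val_zero, Matrix.cons_val_one, Matrix.cons_val] at f0 f1 f2 f3 f4 f5 f6
  have q3 : 3 * (K 3 z - K 3 z') = 0 := by
    linear_combination pz - 3 * f0 - 3 * f1 - 3 * f2 + 9 * f6 - h6 (K 3 z) + h6 (K 3 z')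
  have r3 : K 3 z - K 3 z' = 0 := z23 z3 q3
  have s3 : K 3 w - K 3 w' = 0 := by linear_combination f6 - r3
  constructor
  · apply hK.inj
    intro a
    match a with
    | 0 => linear_combination f0 - s3
    | 1 => linear_combination f1 - s3
    | 2 => linear_combination f2 - s3
    | 3 => linear_combination r3
  · apply hK.inj
    intro a
    match a with
    | 0 => linear_combination f3 - r3
    | 1 => linear_combination f4 - r3
    | 2 => linear_combination f5 - r3
    | 3 => linear_combination s3

/-- first half of the coordinates -/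
def fst3 (x : Fin 6 → ZMod 6) : Fin 3 → ZMod 6 := fun i => x (Fin.castAdd 3 i)

/-- second half of the coordinates -/
def snd3 (x : Fin 6 → ZMod 6) : Fin 3 → ZMod 6 := fun i => x (Fin.natAdd 3 i)

/-- **Seven cubes of dimension six and order six.** -/
theorem exists_seven {K : Fin 4 → (Fin 3 → ZMod 6) → ZMod 6} (hK : IsGadget K) :
    ∃ C : Fin (6 + 1) → (Fin 6 → Fin 6) → Fin 6, IsVariationalSet 6 6 (6 + 1) C := by
  refine ⟨fun k x => F K k (fst3 x) (snd3 x), ?_, ?_⟩
  · intro k i x
    -- the line
    show Bijective (fun t : ZMod 6 => K (la k) (fst3 (update x i t)) + K (lb k) (snd3 (update x i t)))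
    rcases Nat.lt_or_ge (i : ℕ) 3 with hi | hi
    · have e1 : ∀ t : ZMod 6, fst3 (update x i t) = update (fst3 x) ⟨i, hi⟩ t := by
        intro t
        funext j
        by_cases hj : j = ⟨i, hi⟩
        · subst hj
          have : Fin.castAdd 3 (⟨(i : ℕ), hi⟩ : Fin 3) = i := Fin.ext rfl
          show update x i t (Fin.castAdd 3 ⟨(i : ℕ), hi⟩) = update (fst3 x) _ t _
          rw [this, update_self, update_self]
        · rw [update_of_ne hj]
          have : Fin.castAdd 3 j ≠ i := fun h' => hj (Fin.ext (by
            have := congrArg Fin.val h'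
            simpa using this))
          simp only [fst3]
          rw [update_of_ne this]
      have e2 : ∀ t : ZMod 6, snd3 (update x i t) = snd3 x := by
        intro t
        funext j
        have : Fin.natAdd 3 j ≠ i := fun h' => by
          have := congrArg Fin.val h'
          simp at this
          omega
        simp only [snd3]
        rw [update_of_ne this]
      simp only [e1, e2]
      exact (Equiv.addRight _).bijective.comp (hK.line (la k) ⟨i, hi⟩ (fst3 x))
    · have hi3 : (i : ℕ) - 3 < 3 := by have := i.2; omega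
      have e1 : ∀ t : ZMod 6, snd3 (update x i t) = update (snd3 x) ⟨i - 3, hi3⟩ t := by
        intro t
        funext j
        by_cases hj : j = ⟨i - 3, hi3⟩
        · subst hj
          have : Fin.natAdd 3 (⟨(i : ℕ) - 3, hi3⟩ : Fin 3) = i := Fin.ext (by simp; omega)
          show update x i t (Fin.natAdd 3 ⟨(i : ℕ) - 3, hi3⟩) = update (snd3 x) _ t _
          rw [this, update_self, update_self]
        · rw [update_of_ne hj]
          have : Fin.natAdd 3 j ≠ i := fun h' => hj (Fin.ext (by
            have := congrArg Fin.val h'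
            simp at this
            simp only
            omega))
          simp only [snd3]
          rw [update_of_ne this]
      have e2 : ∀ t : ZMod 6, fst3 (update x i t) = fst3 x := by
        intro t
        funext j
        have : Fin.castAdd 3 j ≠ i := fun h' => by
          have := congrArg Fin.val h'
          simp at this
          have := j.2
          omega
        simp only [fst3]
        rw [update_of_ne this]
      simp only [e1, e2]
      exact (Equiv.addLeft _).bijective.comp (hK.line (lb k) ⟨i - 3, hi3⟩ (snd3 x))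
  · intro e he
    rw [← Finite.injective_iff_bijective]
    intro x y hxy
    obtain ⟨k₀, hk₀⟩ : ∃ k₀, ∀ k, k ≠ k₀ → ∃ i, e i = k := by
      have hc : (Finset.univ.image e)ᶜ.card = 1 := by
        rw [Finset.card_compl, Finset.card_image_of_injective _ he]
        simp
      obtain ⟨k₀, hk₀⟩ := Finset.card_eq_one.1 hc
      refine ⟨k₀, fun k hk => ?_⟩
      by_contra hcon
      have : k ∈ (Finset.univ.image e)ᶜ := by
        simpa using hcon
      rw [hk₀, Finset.mem_singleton] at this
      exact hk this
    obtain ⟨h1, h2⟩ := key hK k₀ (z := fst3 x) (w := snd3 x) (z' := fst3 y) (w' := snd3 y) (by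
      intro o ho
      obtain ⟨i, hi⟩ := hk₀ o ho
      have := congrFun hxy i
      simp only [hi] at this
      exact this)
    funext i
    rcases Nat.lt_or_ge (i : ℕ) 3 with hi | hi
    · have := congrFun h1 ⟨i, hi⟩
      simp only [fst3] at this
      have e1 : Fin.castAdd 3 (⟨(i : ℕ), hi⟩ : Fin 3) = i := Fin.ext rfl
      rwa [e1] at this
    · have hi3 : (i : ℕ) - 3 < 3 := by have := i.2; omega
      have := congrFun h2 ⟨i - 3, hi3⟩
      simp only [snd3] at this
      have e1 : Fin.natAdd 3 (⟨(i : ℕ) - 3, hi3⟩ : Fin 3) = i := Fin.ext (by simp; omega)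
      rwa [e1] at this

end Pool.Agent.TH7.Six6
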