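import Pool.Agent.TH7.Six6.Assemble
import Pool.Agent.TH7.Cyc.Tab

set_option autoImplicit false

/-!
# From tables to gadgets
-/

namespace Pool.Agent.TH7.Six6

open Function Pool.Agent.TH7.Cyc

/-- the cube number `c` of the tables -/
def kt (tb : ℕ → ℕ) (c p q r : ℕ) : ℕ := look (tb c) (36 * p + 6 * q + r)

theorem kt_lt (tb : ℕ → ℕ) (c p q r : ℕ) : kt tb c p q r < 6 := Nat.mod_lt _ (by norm_num)

/-- the four cubes on `ZMod 6` -/
def KT (tb : ℕ → ℕ) (a : Fin 4) (z : Fin 3 → ZMod 6) : ZMod 6 :=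
  (⟨kt tb a (z 0).val (z 1).val (z 2).val, kt_lt _ _ _ _ _⟩ : Fin 6)

/-- all lines are permutations -/
def linesOk (tb : ℕ → ℕ) : Bool :=
  (List.range 4).all fun c => (List.range 6).all fun p => (List.range 6).all fun q =>
    (mask (fun t => kt tb c t p q) == 63 && mask (fun t => kt tb c p t q) == 63) &&
      mask (fun t => kt tb c p q t) == 63

/-- the relations -/
def relOk (tb : ℕ → ℕ) (ph : ℕ) : Bool :=
  (List.range 6).all fun p => (List.range 6).all fun q => (List.range 6).all fun r =>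
    (kt tb 0 p q r + kt tb 1 p q r + kt tb 2 p q r + kt tb 3 p q r) % 3 == 0 &&
      (kt tb 0 p q r + kt tb 1 p q r + kt tb 2 p q r) % 2 ==
        (ph >>> (27 * (kt tb 0 p q r % 3) + 9 * (kt tb 1 p q r % 3) + 3 * (kt tb 2 p q r % 3) +
          kt tb 3 p q r % 3)) % 2

/-- the cubes `1, 2, 3` determine the cell -/
def injOk (tb : ℕ → ℕ) (iv : ℕ) : Bool :=
  (List.range 6).all fun p => (List.range 6).all fun q => (List.range 6).all fun r =>
    look' iv (36 * kt tb 1 p q r + 6 * kt tb 2 p q r + kt tb 3 p q r) == 36 * p + 6 * q + r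

theorem bij_of_mask {f : ℕ → ℕ} (hf : ∀ t, f t < 6) (h : mask f = 63) :
    Bijective (fun t : ZMod 6 => (show ZMod 6 from (⟨f t.val, hf t.val⟩ : Fin 6))) := by
  rw [← Finite.surjective_iff_bijective]
  intro k
  obtain ⟨t, ht, hk⟩ := mask_surj h k.val (ZMod.val_lt k)
  refine ⟨(⟨t, ht⟩ : Fin 6), ?_⟩
  exact Fin.ext hk

theorem KT_cast (tb : ℕ → ℕ) (a : Fin 4) (z : Fin 3 → ZMod 6) :
    KT tb a z = ((kt tb a (z 0).val (z 1).val (z 2).val : ℕ) : ZMod 6) := by
  have h := kt_lt tb a (z 0).val (z 1).val (z 2).val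
  apply ZMod.val_injective
  rw [ZMod.val_natCast, Nat.mod_eq_of_lt h]
  rfl

theorem gadget_of_checks {tb : ℕ → ℕ} {ph iv : ℕ} (h1 : linesOk tb = true)
    (h2 : relOk tb ph = true) (h3 : injOk tb iv = true) : IsGadget (KT tb) := by
  simp only [linesOk, List.all_eq_true, List.mem_range, Bool.and_eq_true, beq_iff_eq] at h1
  simp only [relOk, List.all_eq_true, List.mem_range, Bool.and_eq_true, beq_iff_eq] at h2
  simp only [injOk, List.all_eq_true, List.mem_range, beq_iff_eq] at h3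
  refine ⟨?_, ?_, ?_, ?_⟩
  · intro a i z
    match i with
    | 0 =>
      have := (h1 a a.2 (z 1).val (ZMod.val_lt _) (z 2).val (ZMod.val_lt _)).1.1
      exact bij_of_mask (f := fun t => kt tb a t (z 1).val (z 2).val) (fun _ => kt_lt _ _ _ _ _) this
    | 1 =>
      have := (h1 a a.2 (z 0).val (ZMod.val_lt _) (z 2).val (ZMod.val_lt _)).1.2
      exact bij_of_mask (f := fun t => kt tb a (z 0).val t (z 2).val) (fun _ => kt_lt _ _ _ _ _) this
    | 2 =>
      have := (h1 a a.2 (z 0).val (ZMod.val_lt _) (z 1).val (ZMod.val_lt _)).2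
      exact bij_of_mask (f := fun t => kt tb a (z 0).val (z 1).val t) (fun _ => kt_lt _ _ _ _ _) this
  · intro z z' h
    have e := h3 (z 0).val (ZMod.val_lt _) (z 1).val (ZMod.val_lt _) (z 2).val (ZMod.val_lt _)
    have e' := h3 (z' 0).val (ZMod.val_lt _) (z' 1).val (ZMod.val_lt _) (z' 2).val (ZMod.val_lt _)
    have g : ∀ a : Fin 4, kt tb a (z 0).val (z 1).val (z 2).val =
        kt tb a (z' 0).val (z' 1).val (z' 2).val := fun a => congrArg Fin.val (h a)
    have g1 := g 1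
    have g2 := g 2
    have g3 := g 3
    simp only [Fin.val_one, Fin.val_two] at g1 g2
    change kt tb 3 _ _ _ = kt tb 3 _ _ _ at g3
    rw [g1, g2, g3] at e
    have q := e.symm.trans e'
    have b0 := ZMod.val_lt (z 0)
    have b1 := ZMod.val_lt (z 1)
    have b2 := ZMod.val_lt (z 2)
    have b0' := ZMod.val_lt (z' 0)
    have b1' := ZMod.val_lt (z' 1)
    have b2' := ZMod.val_lt (z' 2)
    funext i
    match i with
    | 0 => exact ZMod.val_injective 6 (by omega)
    | 1 => exact ZMod.val_injective 6 (by omega)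
    | 2 => exact ZMod.val_injective 6 (by omega)
  · intro z
    have e := (h2 (z 0).val (ZMod.val_lt _) (z 1).val (ZMod.val_lt _) (z 2).val
      (ZMod.val_lt _)).1
    rw [KT_cast, KT_cast, KT_cast, KT_cast]
    change 2 * (((kt tb 0 _ _ _ : ℕ) : ZMod 6) + ((kt tb 1 _ _ _ : ℕ) : ZMod 6) +
      ((kt tb 2 _ _ _ : ℕ) : ZMod 6) + ((kt tb 3 _ _ _ : ℕ) : ZMod 6)) = 0
    obtain ⟨k, hk⟩ := Nat.dvd_of_mod_eq_zero e
    have : (2 * (kt tb 0 (z 0).val (z 1).val (z 2).val + kt tb 1 (z 0).val (z 1).val (z 2).val +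
        kt tb 2 (z 0).val (z 1).val (z 2).val + kt tb 3 (z 0).val (z 1).val (z 2).val) : ℕ) =
        6 * k := by omega
    have h' := congrArg (Nat.cast : ℕ → ZMod 6) this
    push_cast at h'
    rw [h', h6]
  · intro z z' h
    have res : ∀ a : Fin 4, kt tb a (z 0).val (z 1).val (z 2).val % 3 =
        kt tb a (z' 0).val (z' 1).val (z' 2).val % 3 := by
      intro a
      have ha := h a
      rw [KT_cast, KT_cast] at ha
      have h' : ((2 * kt tb a (z 0).val (z 1).val (z 2).val : ℕ) : ZMod 6) =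
          ((2 * kt tb a (z' 0).val (z' 1).val (z' 2).val : ℕ) : ZMod 6) := by
        push_cast
        exact ha
      rw [ZMod.natCast_eq_natCast_iff'] at h'
      omega
    have e := (h2 (z 0).val (ZMod.val_lt _) (z 1).val (ZMod.val_lt _) (z 2).val
      (ZMod.val_lt _)).2
    have e' := (h2 (z' 0).val (ZMod.val_lt _) (z' 1).val (ZMod.val_lt _) (z' 2).val
      (ZMod.val_lt _)).2
    have r0 := res 0
    have r1 := res 1
    have r2 := res 2
    have r3 := res 3
    simp only [Fin.val_zero, Fin.val_one, Fin.val_two] at r0 r1 r2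
    change kt tb 3 _ _ _ % 3 = kt tb 3 _ _ _ % 3 at r3
    rw [r0, r1, r2, r3] at e
    have q := e.trans e'.symm
    simp only [KT_cast]
    change 3 * (((kt tb 0 _ _ _ : ℕ) : ZMod 6) + ((kt tb 1 _ _ _ : ℕ) : ZMod 6) +
      ((kt tb 2 _ _ _ : ℕ) : ZMod 6)) = 3 * (((kt tb 0 _ _ _ : ℕ) : ZMod 6) +
      ((kt tb 1 _ _ _ : ℕ) : ZMod 6) + ((kt tb 2 _ _ _ : ℕ) : ZMod 6))
    have h' : ((3 * (kt tb 0 (z 0).val (z 1).val (z 2).val + kt tb 1 (z 0).val (z 1).val (z 2).val +
        kt tb 2 (z 0).val (z 1).val (z 2).val) : ℕ) : ZMod 6) =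
        ((3 * (kt tb 0 (z' 0).val (z' 1).val (z' 2).val + kt tb 1 (z' 0).val (z' 1).val (z' 2).val +
        kt tb 2 (z' 0).val (z' 1).val (z' 2).val) : ℕ) : ZMod 6) := by
      rw [ZMod.natCast_eq_natCast_iff']
      omega
    push_cast at h'
    exact h'

end Pool.Agent.TH7.Six6
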